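import Pool.Agent.Run7.h177.PG.Hen
import Pool.Agent.Run7.h177.TA.Iface
import Pool.Agent.Y216.Point
import Pool.Agent.Helper386.D5V.Helper386_FF_Gauss

/-!
Infinitely many maps from a pointed curve, from a self-map with a fixed point (`Dyn`, `Good`).
-/

set_option autoImplicit false

attribute [-instance] HahnSeries.powerSeriesAlgebra

namespace Run7.h177.PG

open MvPolynomial FF
open Pool.Agent.W602.RG (HasValue)
open Pool.Agent.W603.PV (pord pord_le)
open Run7.h177.TA

variable {w : ℕ}

/-- Laurent series -/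
theorem exists_ls : ∃ (E : Type) (_ : Field E) (_ : Algebra ℂ E) (Q : Place ℂ E)
    (ι : PowerSeries ℂ →ₐ[ℂ] E), Function.Injective ι ∧ Q.ord (ι PowerSeries.X) = 1 ∧
      (∀ f : PowerSeries ℂ, f ≠ 0 → PowerSeries.constantCoeff f = 0 → 0 < Q.ord (ι f)) ∧
      ∀ f : PowerSeries ℂ, PowerSeries.constantCoeff f ≠ 0 → Q.ord (ι f) = 0 := by
  have hinj : Function.Injective (HahnSeries.ofPowerSeries ℤ ℂ) :=
    HahnSeries.ofPowerSeries_injective
  have hneg : ∀ (f : PowerSeries ℂ) (i : ℤ), i < 0 → (HahnSeries.ofPowerSeries ℤ ℂ f).coeff i = 0 := by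
    intro f i hi
    have := PowerSeries.coeff_coe (R := ℂ) f i
    rw [if_pos hi] at this
    exact this
  have h00 : ∀ f : PowerSeries ℂ, (HahnSeries.ofPowerSeries ℤ ℂ f).coeff 0 =
      PowerSeries.constantCoeff f := by
    intro f
    have := PowerSeries.coeff_coe (R := ℂ) f 0
    rw [if_neg (lt_irrefl _)] at this
    rw [this]
    simp
  refine ⟨LaurentSeries ℂ, inferInstance, inferInstance, lsPlace ℂ ℂ,
    { HahnSeries.ofPowerSeries ℤ ℂ with
      commutes' := fun r => by
        show HahnSeries.ofPowerSeries ℤ ℂ (algebraMap ℂ (PowerSeries ℂ) r) = _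
        rw [show algebraMap ℂ (PowerSeries ℂ) r = PowerSeries.C r from rfl,
          HahnSeries.ofPowerSeries_C]
        rfl }, hinj, ?_, ?_, ?_⟩
  · show (HahnSeries.ofPowerSeries ℤ ℂ PowerSeries.X).order = 1
    rw [HahnSeries.ofPowerSeries_X]
    exact HahnSeries.order_single one_ne_zero
  · intro f hf h0
    show 0 < (HahnSeries.ofPowerSeries ℤ ℂ f).order
    have hne : HahnSeries.ofPowerSeries ℤ ℂ f ≠ 0 := fun h => hf (hinj (by rw [h, map_zero]))
    have h1 := fun h => hne (HahnSeries.coeff_order_eq_zero.1 h)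
    rcases lt_trichotomy (HahnSeries.ofPowerSeries ℤ ℂ f).order 0 with h | h | h
    · exact absurd (hneg f _ h) h1
    · rw [h, h00] at h1
      exact absurd h0 h1
    · exact h
  · intro f h0
    show (HahnSeries.ofPowerSeries ℤ ℂ f).order = 0
    have hne : HahnSeries.ofPowerSeries ℤ ℂ f ≠ 0 := fun h => h0 (by
      have : f = 0 := hinj (by rw [h, map_zero])
      rw [this, map_zero])
    have h1 := fun h => hne (HahnSeries.coeff_order_eq_zero.1 h)
    apply le_antisymm
    · exact HahnSeries.order_le_of_coeff_ne_zero (by rw [h00]; exact h0)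
    · by_contra hc
      exact h1 (hneg f _ (not_le.1 hc))

theorem cc_aeval (P : Option (Fin w) → PowerSeries ℂ)
    (hP : ∀ j, PowerSeries.constantCoeff (P j) = 0) (H : Pl ℂ w) :
    PowerSeries.constantCoeff (aeval P H) = constantCoeff H := by
  induction H using MvPolynomial.induction_on with
  | C a =>
    rw [aeval_C, constantCoeff_C]
    exact PowerSeries.constantCoeff_C a
  | add p q hp hq => rw [map_add, map_add, hp, hq, map_add]
  | mul_X p j hp => rw [map_mul, aeval_X, map_mul, hP, mul_zero, map_mul, constantCoeff_X, mul_zero]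

theorem c1_aeval (P : Option (Fin w) → PowerSeries ℂ)
    (hP : ∀ j, PowerSeries.constantCoeff (P j) = 0) (H : Pl ℂ w) :
    PowerSeries.coeff 1 (aeval P H) = ∑ j, lc j H * PowerSeries.coeff 1 (P j) := by
  classical
  induction H using MvPolynomial.induction_on with
  | C a =>
    rw [aeval_C, show algebraMap ℂ (PowerSeries ℂ) a = PowerSeries.C a from rfl,
      PowerSeries.coeff_C, if_neg one_ne_zero]
    symm
    refine Finset.sum_eq_zero fun j _ => ?_
    unfold lc
    rw [coeff_C, if_neg, zero_mul]
    intro h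
    have := DFunLike.congr_fun h j
    simp at this
  | add p q hp hq =>
    rw [map_add, map_add, hp, hq, ← Finset.sum_add_distrib]
    refine Finset.sum_congr rfl fun j _ => ?_
    unfold lc
    rw [coeff_add, add_mul]
  | mul_X p i hp =>
    rw [map_mul, aeval_X, PowerSeries.coeff_one_mul, hP, mul_zero, zero_add, cc_aeval P hP,
      Finset.sum_eq_single i]
    · unfold lc
      rw [coeff_mul_X', if_pos (by simp), tsub_self, mul_comm]
      rfl
    · intro j _ hji
      unfold lc
      rw [coeff_mul_X', if_neg, zero_mul]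
      intro h
      rw [Finsupp.mem_support_iff, Finsupp.single_apply] at h
      by_cases h2 : j = i
      · exact hji h2
      · exact h (if_neg h2)
    · intro h
      exact absurd (Finset.mem_univ i) h

theorem aeval_hom' (e : ℕ) (a : Option (Fin w) → Pl ℂ w) (b H : Pl ℂ w)
    (he : ∀ m ∈ H.support, m.degree ≤ e) (P P' : Option (Fin w) → PowerSeries ℂ)
    (hP : ∀ j, P' j * aeval P b = aeval P (a j)) :
    aeval P (hom e a b H) = aeval P b ^ e * aeval P' H := by
  classical
  rw [hom, map_sum, aeval_def P' , eval₂_eq', Finset.mul_sum]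
  refine Finset.sum_congr rfl fun m hm => ?_
  rw [map_mul, map_mul, aeval_C, map_prod, map_pow]
  have h1 : ∏ i, aeval P (a i ^ m i) = (∏ i, P' i ^ m i) * aeval P b ^ m.degree := by
    rw [Finsupp.degree_eq_sum, ← Finset.prod_pow_eq_pow_sum, ← Finset.prod_mul_distrib]
    refine Finset.prod_congr rfl fun i _ => ?_
    rw [map_pow, ← hP, mul_pow]
  have h2 : aeval P b ^ e = aeval P b ^ (e - m.degree) * aeval P b ^ m.degree := by
    rw [← pow_add, Nat.sub_add_cancel (he m hm)]
  rw [h1, h2]
  ring

/-- One step. -/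
theorem step {n : ℕ} {ι : Type} {F : ι → MvPolynomial (Fin (n + 1)) ℂ}
    {Q : MvPolynomial (Fin (n + 1)) ℂ} {D : Dyn ℂ w n} (h : Good F Q D)
    (P : Option (Fin w) → PowerSeries ℂ) (hP : ∀ j, PowerSeries.constantCoeff (P j) = 0)
    (hM : aeval P D.M = 0) : ∃ P' : Option (Fin w) → PowerSeries ℂ,
      (∀ j, P' j * aeval P D.b = aeval P (D.a j)) ∧ (∀ j, PowerSeries.constantCoeff (P' j) = 0) ∧
      aeval P' D.M = 0 ∧
      ∀ i, PowerSeries.coeff 1 (P' (some i)) = 2 * PowerSeries.coeff 1 (P (some i)) := by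
  classical
  have hb : PowerSeries.constantCoeff (aeval P D.b) = 1 := by rw [cc_aeval P hP, h.b0]
  have hbu : IsUnit (aeval P D.b : PowerSeries ℂ) := by
    rw [PowerSeries.isUnit_iff_constantCoeff, hb]
    exact isUnit_one
  obtain ⟨u, hu⟩ := hbu.exists_left_inv
  refine ⟨fun j => aeval P (D.a j) * u, fun j => by rw [mul_assoc, hu, mul_one], fun j => by
    rw [map_mul, cc_aeval P hP, h.a0, zero_mul], ?_, fun i => ?_⟩
  · obtain ⟨e, he, q, hq⟩ := h.inv
    have h1 := aeval_hom' e D.a D.b D.M he P (fun j => aeval P (D.a j) * u)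
      (fun j => by rw [mul_assoc, hu, mul_one])
    rw [hq, map_mul, hM, zero_mul] at h1
    exact ((mul_eq_zero.1 h1.symm).resolve_left (pow_ne_zero _ hbu.ne_zero))
  · have e1 : ∀ j, PowerSeries.coeff 1 (aeval P (D.a j) * u : PowerSeries ℂ) =
        PowerSeries.coeff 1 (aeval P (D.a j) : PowerSeries ℂ) := by
      intro j
      have h2 : aeval P (D.a j) * u * aeval P D.b = (aeval P (D.a j) : PowerSeries ℂ) := by
        rw [mul_assoc, hu, mul_one]
      have h3 := congrArg (PowerSeries.coeff 1) h2
      rw [PowerSeries.coeff_one_mul, hb, mul_one, RingHom.map_mul, cc_aeval P hP (D.a j), h.a0,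
        zero_mul, mul_zero, add_zero] at h3
      exact h3
    rw [e1, c1_aeval P hP]
    have h4 := c1_aeval P hP D.M
    rw [hM, map_zero] at h4
    rw [Fintype.sum_option] at h4 ⊢
    have hM1 : lc none D.M ≠ 0 := h.M1.ne_zero
    apply mul_left_cancel₀ hM1
    have h5 : lc none D.M * PowerSeries.coeff 1 (P none) =
        - ∑ l, lc (some l) D.M * PowerSeries.coeff 1 (P (some l)) := by
      linear_combination -h4
    have h6 : ∑ l, (lc (some l) (D.a (some i)) * lc none D.M -
        lc none (D.a (some i)) * lc (some l) D.M) * PowerSeries.coeff 1 (P (some l)) =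
        2 * lc none D.M * PowerSeries.coeff 1 (P (some i)) := by
      simp only [h.lin]
      rw [Finset.sum_eq_single i]
      · rw [if_pos rfl]
      · intro l _ hl
        rw [if_neg (Ne.symm hl), zero_mul]
      · intro hi
        exact absurd (Finset.mem_univ i) hi
    rw [mul_add, Finset.mul_sum]
    have h7 : ∑ l, lc none D.M * (lc (some l) (D.a (some i)) * PowerSeries.coeff 1 (P (some l))) =
        ∑ l, (lc (some l) (D.a (some i)) * lc none D.M -
        lc none (D.a (some i)) * lc (some l) D.M) * PowerSeries.coeff 1 (P (some l)) +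
        lc none (D.a (some i)) * ∑ l, lc (some l) D.M * PowerSeries.coeff 1 (P (some l)) := by
      rw [Finset.mul_sum, ← Finset.sum_add_distrib]
      refine Finset.sum_congr rfl fun l _ => ?_
      ring
    rw [h7, h6]
    linear_combination lc none (D.a (some i)) * h5

end Run7.h177.PG
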