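import Pool.Agent.Run7.h177.PG.Inf
import Pool.Agent.Run7.h177.TA.GenMain
import Pool.Agent.Run7.h418.E.Thm
import Pool.Agent.R869.WMordDefs

/-!
Pointed curves, complex tori, entire curves and subvarieties, for projective varieties whose symmetric
differentials generate a symmetric power of the cotangent sheaf.
-/

set_option autoImplicit false

namespace Run7.h177.PG

open MvPolynomial FF LinearAlgebra.Projectivization
open Pool.Agent.W602.GT Pool.Agent.N155 Run7.h418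
open Pool.Agent.TH182.TC (PS OnX Holo)
open Pool.Agent.W602.RG (HasValue PointedMaps PseudoGeomHyp)
open Run7.h177.TA

variable {n : ℕ} {ι κ τ : Type}

/-- The morphisms to `X = {F = 0}` from the smooth projective curve with the function field `L` which
map the point `c` to the point `x`. -/
def Maps (F : ι → MvPolynomial (Fin (n + 1)) ℂ) {L : Type} [Field L] [Algebra ℂ L]
    (c : Place ℂ L) (x : Fin (n + 1) → ℂ) : Set (ℙ L (Fin (n + 1) → L)) :=
  {φ | ∃ (f : Fin (n + 1) → L) (hf : f ≠ 0), (∀ i, aeval f (F i) = 0) ∧ HasValue c x f ∧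
    φ = Projectivization.mk L f hf}

/-- For all pointed curves `(C, c)` and all points `x` of `X = {F = 0}` outside of `{Q = 0}` there are
only finitely many morphisms from `C` to `X` which map `c` to `x`. -/
def FinMaps (F : ι → MvPolynomial (Fin (n + 1)) ℂ) (Q : κ → MvPolynomial (Fin (n + 1)) ℂ) : Prop :=
  ∀ (L : Type) [Field L] [Algebra ℂ L] [IsFF ℂ L] (c : Place ℂ L), ∀ x ∈ Cone F,
    (∃ j, val x (Q j) ≠ 0) → (Maps F c x).Finite

/-- An immersed torus gives a pointed curve with infinitely many maps. -/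
theorem pointed_of_torus {F : ι → MvPolynomial (Fin (n + 1)) ℂ} (hF : ∀ i, IsForm (F i))
    {Q : MvPolynomial (Fin (n + 1)) ℂ} (hQ : IsForm Q) {w : ℕ} (hw : 0 < w)
    (b : Module.Basis (Fin (2 * w)) ℝ (Fin w → ℂ)) {g : (Fin w → ℂ) → PS n} (hg : Holo g)
    (hper : ∀ z i, g (z + b i) = g z) {t₁ : Fin w → ℂ} (him : ImmAt g t₁)
    (hX : ∀ t, OnX F (g t)) (hQ0 : ∃ t, eval (g t).rep Q ≠ 0) :
    ∃ (L : Type) (_ : Field L) (_ : Algebra ℂ L) (_ : IsFF ℂ L) (c : Place ℂ L)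
      (x : Fin (n + 1) → ℂ), x ∈ Cone F ∧ val x Q ≠ 0 ∧ (Maps F c x).Infinite := by
  obtain ⟨h, t₀, U, V, M, l0, l, κ, h0, c, hU, hQ1⟩ :=
    exists_cht Pool.Agent.Run7.h811.TA.t_IDT
      (Run7.h824.TA.t_SIE Run7.h973.TA.t_LIP (Run7.h862.TA.t_JET Run7.h862.TA.t_TAY)
        Run7.h824.TA.t_SCH) Run7.h711.TA.t_PRI Run7.h711.TA.t_COO Run7.h711.TA.t_AIN
      hw b hg hper him hQ hQ0
  obtain ⟨D, hGD⟩ := c.dyn (Run7.h824.TA.t_KRU Run7.h862.TA.t_TAY) h0 hU F hF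
    (fun i t => hX t i) hQ hQ1
  obtain ⟨L, i1, i2, i3, c, x, hx0, hxF, hxQ, f, hf0, hfF, hfv, hfi⟩ := pointed_of_good hw hGD
  refine ⟨L, i1, i2, i3, c, x, ⟨hx0, fun i => ?_⟩, ?_, ?_⟩
  · rw [val_ev]
    exact hxF i
  · rw [val_ev]
    exact hxQ
  · refine Set.infinite_of_injective_forall_mem
      (f := fun m => Projectivization.mk L (f m) (hf0 m)) ?_ fun m => ⟨f m, hf0 m, hfF m, hfv m, rfl⟩
    intro m m' hmm
    have h1 : Projectivization.mk L (f m) (hf0 m) = Projectivization.mk L (f m') (hf0 m') := hmm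
    rw [Projectivization.mk_eq_mk_iff'] at h1
    obtain ⟨a, ha⟩ := h1
    exact hfi m m' a fun j => by rw [← ha]; rfl

/-- If outside of `Z` the maps from pointed curves are finite in number then the immersed tori lie in
`Z`. -/
theorem torus_zero {F : ι → MvPolynomial (Fin (n + 1)) ℂ} (hF : ∀ i, IsForm (F i))
    {Q : κ → MvPolynomial (Fin (n + 1)) ℂ} (hQ : ∀ j, IsForm (Q j)) (hfin : FinMaps F Q) {w : ℕ}
    (hw : 0 < w) (b : Module.Basis (Fin (2 * w)) ℝ (Fin w → ℂ)) {g : (Fin w → ℂ) → PS n} (hg : Holo g)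
    (hper : ∀ z i, g (z + b i) = g z) {t₁ : Fin w → ℂ} (him : ImmAt g t₁)
    (hX : ∀ t, OnX F (g t)) (j : κ) (t : Fin w → ℂ) : eval (g t).rep (Q j) = 0 := by
  by_contra hne
  obtain ⟨L, i1, i2, i3, c, x, hx, hxQ, hinf⟩ :=
    pointed_of_torus hF (hQ j) hw b hg hper him hX ⟨t, hne⟩
  exact hinf (hfin L c x hx ⟨j, hxQ⟩)

variable {F : ι → MvPolynomial (Fin (n + 1)) ℂ} {Q : κ → MvPolynomial (Fin (n + 1)) ℂ}

/-- entire curves of bounded derivative -/
theorem bdd_zero [Finite τ] (hF : ∀ i, IsForm (F i)) (hQ : ∀ j, IsForm (Q j)) (hfin : FinMaps F Q)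
    {m : τ → ℕ} (hm : ∀ j, 0 < m j) {s : τ → (Fin (n + 1) → ℂ) → (Fin (n + 1) → ℂ) → ℂ}
    (hs : ∀ j, SymForm F (m j) (s j)) (him : Immersive F s) {p : ℂ → PS n} (hp : HolMap p)
    (hb : BoundedDer p) (hpF : ∀ z, (p z).rep ∈ Cone F) (hne : ∃ z w, p z ≠ p w) (j : κ) (z : ℂ) :
    eval (p z).rep (Q j) = 0 := by
  obtain ⟨w, hw, ⟨b, g, d, h1, h2, h3, h4, -⟩, -⟩ := Z.thm_torus hF hm hs him hp hpF hb hne
  rw [← h4]
  exact torus_zero hF hQ hfin hw b (R.holo_of_imm h1) h3 (h1 0) h2 j _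

section gen

variable [Fintype τ] {m : ℕ} {s : τ → (Fin (n + 1) → ℂ) → (Fin (n + 1) → ℂ) → ℂ}

/-- all nonconstant maps from tori -/
theorem tor_zero (hF : ∀ i, IsForm (F i)) (hQ : ∀ j, IsForm (Q j)) (hfin : FinMaps F Q) (hm : 0 < m)
    (hs : ∀ j, SymForm F m (s j)) (hgen : Generates F m s) {q : ℕ}
    (b : Module.Basis (Fin (2 * q)) ℝ (Fin q → ℂ)) {g : (Fin q → ℂ) → PS n} (hg : Holo g)
    (hX : ∀ t, OnX F (g t)) (hper : ∀ t i, g (t + b i) = g t) (hne : ∃ t t', g t ≠ g t') (j : κ)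
    (t : Fin q → ℂ) : eval (g t).rep (Q j) = 0 :=
  R.van_torus (fun _ hp hb hpF hne' z => bdd_zero hF hQ hfin (fun _ => hm) hs
    (R.immersive_of_generates hm hs hgen) hp hb hpF hne' j z) hg hX hper hne t

/-- all entire curves -/
theorem ent_zero (hF : ∀ i, IsForm (F i)) (hQ : ∀ j, IsForm (Q j)) (hfin : FinMaps F Q) (hm : 0 < m)
    (hs : ∀ j, SymForm F m (s j)) (hgen : Generates F m s) {p : ℂ → PS n} (hp : HolMap p)
    (hpF : ∀ z, (p z).rep ∈ Cone F) (hne : ∃ z w, p z ≠ p w) (j : κ) (z : ℂ) :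
    eval (p z).rep (Q j) = 0 :=
  E.van_of_torus E.hyps hF hm hs hgen (hQ j) hp hpF hne (fun q b g hg hH hper hgne t =>
    tor_zero hF hQ hfin hm hs hgen b hg (fun t i => hH _ (hF i) (fun z => by
      rw [← val_ev]
      exact (hpF z).2 i) t) hper hgne j t) z

/-- all subvarieties -/
theorem general_off (hF : ∀ i, IsForm (F i)) (hQ : ∀ j, IsForm (Q j)) (hfin : FinMaps F Q) (hm : 0 < m)
    (hs : ∀ j, SymForm F m (s j)) (hgen : Generates F m s) {K : Type} [Field K] [Algebra ℂ K] {w : ℕ}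
    {y : Fin (n + 1) → K} (hw : 1 ≤ w) (hy : SubVar F K w y) (hyQ : ∃ j, val y (Q j) ≠ 0) :
    GeneralType ℂ K w := by
  by_contra hgt
  obtain ⟨j, hj⟩ := hyQ
  exact hj (R.van_alg hF hm hs hgen (hQ j) (fun q b g hq h1 h2 h3 t =>
    torus_zero hF hQ hfin hq b (R.holo_of_imm h1) h3 (h1 0) h2 j t) hw hy hgt)

/-- **Pseudo-geometrically hyperbolic varieties are of general type.** -/
theorem general_of_pointed (hF : ∀ i, IsForm (F i)) (hm : 0 < m) (hs : ∀ j, SymForm F m (s j))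
    (hgen : Generates F m s) {K : Type} [Field K] [Algebra ℂ K] {w : ℕ} {y : Fin (n + 1) → K}
    (hw : 0 < w) (hy : SubVar F K w y) (h : PseudoGeomHyp ℂ y) : GeneralType ℂ K w := by
  by_contra hgt
  obtain ⟨G, hG, hGy, hfin⟩ := h
  rw [U.general_iff_bounded hF hm hs hgen hw hy] at hgt
  have h1 : ∃ p : ℂ → PS n, HolMap p ∧ BoundedDer p ∧ (∀ z, (p z).rep ∈ VarPts ℂ y) ∧
      (∃ z w, p z ≠ p w) ∧ ∃ z, eval (p z).rep G ≠ 0 := by
    by_contra hcon
    refine hgt ⟨G, hG, hGy, fun p hp hb hV hne z => ?_⟩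
    by_contra hz
    exact hcon ⟨p, hp, hb, hV, hne, z, hz⟩
  obtain ⟨p, hp, hb, hV, hne, z, hz⟩ := h1
  have hsub : ∀ i, ∃ i', U.vf y i' = F i := fun i => ⟨⟨F i, hF i, hy.mem i⟩, rfl⟩
  refine hz (bdd_zero (F := U.vf y) (Q := fun _ : Unit => G) (U.vf_form y) (fun _ => hG) ?_
    (fun _ => hm) (fun j => R.symForm_mono hsub (hs j))
    (U.immersive_mono hsub (R.immersive_of_generates hm hs hgen)) hp hb
    (fun z => U.cone_vf.2 (hV z)) hne () z)
  intro L _ _ _ c x hx hxG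
  obtain ⟨_, hxG'⟩ := hxG
  refine (hfin L c x (U.cone_vf.1 hx) hxG').subset ?_
  rintro φ ⟨f, hf, h1, h2, h3⟩
  exact ⟨f, hf, fun H hH hyH => h1 ⟨H, hH, hyH⟩, h2, h3⟩

end gen

end Run7.h177.PG
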