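import Mathlib

/-!
The lemma of Hensel in a complete ring, for polynomials which need not be monic.
-/

set_option autoImplicit false

namespace Run7.h177.PG

open Polynomial Function List
open scoped Ring

/-- The lemma of Hensel (the proof is the one of Mathlib for monic polynomials). -/
theorem hensel {R : Type*} [CommRing R] (I : Ideal R) [IsAdicComplete I R] (f : R[X]) (a₀ : R)
    (h₁ : f.eval a₀ ∈ I) (h₂ : IsUnit (Ideal.Quotient.mk I (f.derivative.eval a₀))) :
    ∃ a : R, f.IsRoot a ∧ a - a₀ ∈ I := by
    classical
      let f' := derivative f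
      let c : ℕ → R := fun n => Nat.recOn n a₀ fun _ b => b - f.eval b * (f'.eval b)⁻¹ʳ
      have hc : ∀ n, c (n + 1) = c n - f.eval (c n) * (f'.eval (c n))⁻¹ʳ := by
        intro n
        simp only [c]
      have hc_mod : ∀ n, c n ≡ a₀ [SMOD I] := by
        intro n
        induction n with
        | zero => rfl
        | succ n ih => ?_
        rw [hc, sub_eq_add_neg, ← add_zero a₀]
        refine ih.add ?_
        rw [SModEq.zero, Ideal.neg_mem_iff]
        refine I.mul_mem_right _ ?_
        rw [← SModEq.zero] at h₁ ⊢
        exact (ih.eval f).trans h₁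
      have hf'c : ∀ n, IsUnit (f'.eval (c n)) := by
        intro n
        have := isLocalHom_of_le_jacobson_bot I (IsAdicComplete.le_jacobson_bot I)
        apply IsUnit.of_map (Ideal.Quotient.mk I)
        convert! h₂ using 1
        exact SModEq.def.mp ((hc_mod n).eval _)
      have hfcI : ∀ n, f.eval (c n) ∈ I ^ (n + 1) := by
        intro n
        induction n with
        | zero => simpa only [Nat.rec_zero, zero_add, pow_one] using! h₁
        | succ n ih => ?_
        rw [← taylor_eval_sub (c n), hc, sub_eq_add_neg, sub_eq_add_neg,
          add_neg_cancel_comm]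
        rw [eval_eq_sum, sum_over_range' _ _ _ (lt_add_of_pos_right _ zero_lt_two), ←
          Finset.sum_range_add_sum_Ico _ (Nat.le_add_left _ _)]
        swap
        · intro i
          rw [zero_mul]
        refine Ideal.add_mem _ ?_ ?_
        · rw [← one_add_one_eq_two, Finset.sum_range_succ, Finset.range_one, Finset.sum_singleton,
            taylor_coeff_zero, taylor_coeff_one, pow_zero, pow_one, mul_one, mul_neg,
            mul_left_comm, Ring.mul_inverse_cancel _ (hf'c n), mul_one, add_neg_cancel]
          exact Ideal.zero_mem _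
        · refine Submodule.sum_mem _ ?_
          simp only [Finset.mem_Ico]
          rintro i ⟨h2i, _⟩
          have aux : n + 2 ≤ i * (n + 1) := by trans 2 * (n + 1) <;> nlinarith only [h2i]
          refine Ideal.mul_mem_left _ _ (Ideal.pow_le_pow_right aux ?_)
          rw [pow_mul']
          exact Ideal.pow_mem_pow ((Ideal.neg_mem_iff _).2 <| Ideal.mul_mem_right _ _ ih) _
      have aux : ∀ m n, m ≤ n → c m ≡ c n [SMOD (I ^ m • ⊤ : Ideal R)] := by
        intro m n hmn
        rw [← Ideal.one_eq_top, Ideal.smul_eq_mul, mul_one]
        obtain ⟨k, rfl⟩ := Nat.exists_eq_add_of_le hmn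
        clear hmn
        induction k with
        | zero => rw [add_zero]
        | succ k ih => ?_
        rw [← add_assoc, hc, ← add_zero (c m), sub_eq_add_neg]
        refine ih.add ?_
        symm
        rw [SModEq.zero, Ideal.neg_mem_iff]
        refine Ideal.mul_mem_right _ _ (Ideal.pow_le_pow_right ?_ (hfcI _))
        rw [add_assoc]
        exact le_self_add
      obtain ⟨a, ha⟩ := IsPrecomplete.prec' c (aux _ _)
      refine ⟨a, ?_, ?_⟩
      · show f.IsRoot a
        suffices ∀ n, f.eval a ≡ 0 [SMOD (I ^ n • ⊤ : Ideal R)] by exact IsHausdorff.haus' _ this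
        intro n
        specialize ha n
        rw [← Ideal.one_eq_top, Ideal.smul_eq_mul, mul_one] at ha ⊢
        refine (ha.symm.eval f).trans ?_
        rw [SModEq.zero]
        exact Ideal.pow_le_pow_right le_self_add (hfcI _)
      · show a - a₀ ∈ I
        specialize ha (0 + 1)
        rw [hc, pow_one, ← Ideal.one_eq_top, Ideal.smul_eq_mul, mul_one, sub_eq_add_neg] at ha
        rw [← SModEq.sub_mem, ← add_zero a₀]
        refine ha.symm.trans (SModEq.rfl.add ?_)
        rw [SModEq.zero, Ideal.neg_mem_iff]
        exact Ideal.mul_mem_right _ _ h₁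

end Run7.h177.PG

namespace Run7.h177.PG

open MvPolynomial in
theorem ab_coeff {k : Type} [Field k] {w : ℕ} (p : Fin w → PowerSeries k)
    (hp : ∀ i, PowerSeries.constantCoeff (p i) = 0) (H : MvPolynomial (Option (Fin w)) k) :
    PowerSeries.constantCoeff ((aeval (fun o : Option (Fin w) =>
        o.elim (Polynomial.X : Polynomial (PowerSeries k)) (fun i => Polynomial.C (p i))) H).coeff 0) =
        constantCoeff H ∧
      PowerSeries.constantCoeff ((aeval (fun o : Option (Fin w) =>
        o.elim (Polynomial.X : Polynomial (PowerSeries k)) (fun i => Polynomial.C (p i))) H).coeff 1) =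
        coeff (Finsupp.single none 1) H := by
  classical
  induction H using MvPolynomial.induction_on with
  | C a =>
    have e : (aeval (fun o : Option (Fin w) =>
        o.elim (Polynomial.X : Polynomial (PowerSeries k)) (fun i => Polynomial.C (p i))))
          (C a : MvPolynomial (Option (Fin w)) k) = Polynomial.C (PowerSeries.C a) := by
      rw [aeval_C]
      rfl
    rw [e]
    constructor
    · simp
    · rw [Polynomial.coeff_C, if_neg one_ne_zero, map_zero, coeff_C, if_neg]
      intro h
      have := DFunLike.congr_fun h none
      simp at this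
  | add p q hp hq =>
    constructor
    · rw [map_add, Polynomial.coeff_add, map_add, hp.1, hq.1, map_add]
    · rw [map_add, Polynomial.coeff_add, map_add, hp.2, hq.2, coeff_add]
  | mul_X q o hq =>
    rw [map_mul, aeval_X]
    cases o with
    | none =>
      constructor
      · simp
      · show PowerSeries.constantCoeff ((_ * Polynomial.X : Polynomial (PowerSeries k)).coeff 1) = _
        rw [show (1 : ℕ) = 0 + 1 from rfl, Polynomial.coeff_mul_X, hq.1, coeff_mul_X',
          if_pos (by simp)]
        simp
        rfl
    | some i =>
      constructor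
      · show PowerSeries.constantCoeff ((_ * Polynomial.C (p i) : Polynomial (PowerSeries k)).coeff 0) = _
        rw [Polynomial.coeff_mul_C, map_mul, hp, mul_zero, map_mul, constantCoeff_X, mul_zero]
      · show PowerSeries.constantCoeff ((_ * Polynomial.C (p i) : Polynomial (PowerSeries k)).coeff 1) = _
        rw [Polynomial.coeff_mul_C, map_mul, hp, mul_zero, coeff_mul_X', if_neg (by simp)]

open MvPolynomial in
/-- A root of `M (P, Y)` with constant coefficient `0`. -/
theorem exists_root {k : Type} [Field k] {w : ℕ} (M : MvPolynomial (Option (Fin w)) k)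
    (h0 : constantCoeff M = 0) (h1 : coeff (Finsupp.single none 1) M ≠ 0)
    (p : Fin w → PowerSeries k) (hp : ∀ i, PowerSeries.constantCoeff (p i) = 0) :
    ∃ θ : PowerSeries k, PowerSeries.constantCoeff θ = 0 ∧
      aeval (fun o : Option (Fin w) => o.elim θ p) M = 0 := by
  classical
  obtain ⟨g, hg⟩ : ∃ g : Option (Fin w) → Polynomial (PowerSeries k), g =
    fun o => o.elim Polynomial.X (fun i => Polynomial.C (p i)) := ⟨_, rfl⟩
  have ev : ∀ θ : PowerSeries k, (aeval g M).eval θ =
      aeval (fun o : Option (Fin w) => o.elim θ p) M := by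
    intro θ
    have h := MvPolynomial.comp_aeval_apply (f := g)
      ((Polynomial.aeval θ : Polynomial (PowerSeries k) →ₐ[PowerSeries k]
        PowerSeries k).restrictScalars k) M
    have e : (fun i => ((Polynomial.aeval θ : Polynomial (PowerSeries k) →ₐ[PowerSeries k]
        PowerSeries k).restrictScalars k) (g i)) = (fun o : Option (Fin w) => o.elim θ p) := by
      funext o
      cases o with
      | none => simp [hg]
      | some i => simp [hg]
    rw [e] at h
    rw [← h, AlgHom.restrictScalars_apply, Polynomial.coe_aeval_eq_eval]
  obtain ⟨a, ha, ha0⟩ := hensel (Ideal.span {(PowerSeries.X : PowerSeries k)}) (aeval g M) 0 (by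
    rw [Ideal.mem_span_singleton, PowerSeries.X_dvd_iff, ← Polynomial.coeff_zero_eq_eval_zero, hg,
      (ab_coeff p hp M).1, h0]) (by
    refine IsUnit.map _ ?_
    rw [PowerSeries.isUnit_iff_constantCoeff, ← Polynomial.coeff_zero_eq_eval_zero,
      Polynomial.coeff_derivative, hg]
    simp only [zero_add, Nat.cast_zero, mul_one]
    rw [(ab_coeff p hp M).2]
    exact h1.isUnit)
  rw [sub_zero, Ideal.mem_span_singleton, PowerSeries.X_dvd_iff] at ha0
  exact ⟨a, ha0, by rw [← ev]; exact ha⟩

end Run7.h177.PG
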