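import Pool.Agent.Run7.h177.PG.Crv
import Pool.Agent.Q103.SF.Ell

/-!
Infinitely many maps from a pointed curve: the function field and the place.
-/

set_option autoImplicit false

namespace Run7.h177.PG

open MvPolynomial FF
open Pool.Agent.W602.RG (HasValue)
open Pool.Agent.W603.PV (pord pord_le)
open Run7.h177.TA

variable {w : ℕ}

theorem isFF_of_alg {E : Type} [Field E] [Algebra ℂ E] {x y : E} (hx : Transcendental ℂ x)
    (hy : IsIntegral (IntermediateField.adjoin ℂ ({x} : Set E)) y)
    (hgen : IntermediateField.adjoin ℂ ({x, y} : Set E) = ⊤) : IsFF ℂ E := by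
  refine IsFF.of_finite hx ?_
  obtain ⟨F, hF⟩ : ∃ F, F = IntermediateField.adjoin ℂ ({x} : Set E) := ⟨_, rfl⟩
  rw [← hF] at hy ⊢
  have hxF : x ∈ F := by rw [hF]; exact IntermediateField.subset_adjoin ℂ _ rfl
  have hfin := IntermediateField.adjoin.finiteDimensional hy
  rw [Pool.Agent.Q103.SF.top_of F hxF hgen] at hfin
  exact (IntermediateField.topEquiv (F := F) (E := E)).toLinearEquiv.finiteDimensional

/-- **Infinitely many maps from a pointed curve.** -/
theorem pointed_of_good {n : ℕ} (hw : 0 < w) {τ : Type} {F : τ → MvPolynomial (Fin (n + 1)) ℂ}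
    {Q : MvPolynomial (Fin (n + 1)) ℂ} {D : Dyn ℂ w n} (h : Good F Q D) :
    ∃ (L : Type) (_ : Field L) (_ : Algebra ℂ L) (_ : IsFF ℂ L) (c : Place ℂ L)
      (x : Fin (n + 1) → ℂ), x ≠ 0 ∧ (∀ i, eval x (F i) = 0) ∧ eval x Q ≠ 0 ∧
      ∃ f : ℕ → Fin (n + 1) → L, (∀ m, f m ≠ 0) ∧ (∀ m i, aeval (f m) (F i) = 0) ∧
        (∀ m, HasValue c x (f m)) ∧ ∀ m m' (a : L), (∀ j, a * f m' j = f m j) → m = m' := by
  classical
  obtain ⟨E, _, _, Q0, ι, hinj, hX, hpos, hzero⟩ := exists_ls
  obtain ⟨i0⟩ : Nonempty (Fin w) := ⟨⟨0, hw⟩⟩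
  -- the curve
  obtain ⟨p, hp⟩ : ∃ p : Fin w → PowerSeries ℂ, p = fun i => if i = i0 then PowerSeries.X else 0 :=
    ⟨_, rfl⟩
  have hp0 : ∀ i, PowerSeries.constantCoeff (p i) = 0 := by
    intro i
    rw [hp]
    by_cases h : i = i0 <;> simp [h]
  obtain ⟨θ, hθ0, hθ⟩ := exists_root D.M h.M0 h.M1.ne_zero p hp0
  -- the orbit
  let S := {P : Option (Fin w) → PowerSeries ℂ //
    (∀ j, PowerSeries.constantCoeff (P j) = 0) ∧ aeval P D.M = 0}
  have hstep : ∀ s : S, ∃ s' : S, (∀ j, s'.1 j * aeval s.1 D.b = aeval s.1 (D.a j)) ∧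
      ∀ i, PowerSeries.coeff 1 (s'.1 (some i)) = 2 * PowerSeries.coeff 1 (s.1 (some i)) := by
    rintro ⟨P, h1, h2⟩
    obtain ⟨P', h3, h4, h5, h6⟩ := step h P h1 h2
    exact ⟨⟨P', h4, h5⟩, h3, h6⟩
  choose nx hn1 hn2 using hstep
  let s0 : S := ⟨fun o => o.elim θ p, fun j => by
    cases j with
    | none => exact hθ0
    | some i => exact hp0 i, hθ⟩
  obtain ⟨P, hP0, hPs⟩ : ∃ P : ℕ → S, P 0 = s0 ∧ ∀ m, P (m + 1) = nx (P m) :=
    ⟨fun m => Nat.rec s0 (fun _ s => nx s) m, rfl, fun _ => rfl⟩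
  have hc1 : ∀ m i, PowerSeries.coeff 1 ((P m).1 (some i)) = 2 ^ m * (if i = i0 then 1 else 0) := by
    intro m
    induction m with
    | zero =>
      intro i
      rw [hP0]
      show PowerSeries.coeff 1 (p i) = _
      rw [hp]
      by_cases h : i = i0 <;> simp [h]
    | succ m ih =>
      intro i
      rw [hPs, hn2, ih]
      ring
  -- the field
  obtain ⟨L, hL⟩ : ∃ L : IntermediateField ℂ E,
    L = IntermediateField.adjoin ℂ {ι PowerSeries.X, ι θ} := ⟨_, rfl⟩
  have hXL : ι PowerSeries.X ∈ L := by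
    rw [hL]
    exact IntermediateField.subset_adjoin _ _ (Set.mem_insert _ _)
  have hθL : ι θ ∈ L := by
    rw [hL]
    exact IntermediateField.subset_adjoin _ _ (Set.mem_insert_of_mem _ rfl)
  have hcomp : ∀ (P : Option (Fin w) → PowerSeries ℂ) (H : Pl ℂ w),
      ι (aeval P H) = aeval (fun j => ι (P j)) H := fun P H => comp_aeval_apply _ ι H
  have hmem : ∀ (P : Option (Fin w) → PowerSeries ℂ), (∀ j, ι (P j) ∈ L) → ∀ H : Pl ℂ w,
      ι (aeval P H) ∈ L := by
    intro P hP H
    have e : ι (aeval P H) = L.val (aeval (fun j => (⟨ι (P j), hP j⟩ : L)) H) := by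
      rw [hcomp, comp_aeval_apply]
      rfl
    rw [e]
    exact (aeval (fun j => (⟨ι (P j), hP j⟩ : L)) H).2
  have hPL : ∀ m j, ι ((P m).1 j) ∈ L := by
    intro m
    induction m with
    | zero =>
      intro j
      rw [hP0]
      cases j with
      | none => exact hθL
      | some i =>
        show ι (p i) ∈ L
        rw [hp]
        by_cases h : i = i0
        · simp only [h, if_true]
          exact hXL
        · simp only [h, if_false, map_zero]
          exact L.zero_mem
    | succ m ih =>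
      intro j
      rw [hPs]
      have hb : ι (aeval (P m).1 D.b) ≠ 0 := by
        intro h0
        have h1 : (aeval (P m).1 D.b : PowerSeries ℂ) = 0 := hinj (by rw [h0, map_zero])
        have h2 := cc_aeval (P m).1 (P m).2.1 D.b
        rw [h1, map_zero, h.b0] at h2
        exact one_ne_zero h2.symm
      have h1 : ι ((nx (P m)).1 j) = ι (aeval (P m).1 (D.a j)) / ι (aeval (P m).1 D.b) := by
        rw [eq_div_iff hb, ← map_mul, hn1]
      rw [h1]
      exact L.div_mem (hmem _ ih _) (hmem _ ih _)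
  -- the place
  have hcom : ∀ r : ℂ, (L.val : L →+* E) (algebraMap ℂ L r) = algebraMap ℂ E r := fun r => rfl
  obtain ⟨c, hc⟩ : ∃ c : Place ℂ L, ∀ z : L, c.ord z = Q0.ord (z : E) :=
    ⟨Q0.comap (L.val : L →+* E) hcom ⟨⟨ι PowerSeries.X, hXL⟩, by
      intro h0
      have h1 : ι PowerSeries.X = 0 := congrArg Subtype.val h0
      rw [h1, Q0.ord_zero] at hX
      exact zero_ne_one hX, hX⟩, fun z => rfl⟩
  -- the function field
  have hFF : IsFF ℂ L := by
    have hgen := Pool.Agent.Q103.SF.adjoin_self_top L hL hXL hθL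
    refine isFF_of_alg ?_ ?_ hgen
    · intro halg
      have h2 := IsAlgClosed.degree_eq_one_of_irreducible ℂ (minpoly.irreducible halg.isIntegral)
      obtain ⟨r, hr⟩ := minpoly.mem_range_of_degree_eq_one ℂ _ h2
      have h3 : c.ord (⟨ι PowerSeries.X, hXL⟩ : L) = 1 := by rw [hc]; exact hX
      rw [← hr] at h3
      by_cases hr0 : r = 0
      · rw [hr0, map_zero, c.ord_zero] at h3
        exact zero_ne_one h3
      · rw [c.ord_const hr0] at h3
        exact zero_ne_one h3
    · obtain ⟨F0, hF0⟩ : ∃ F0, F0 = IntermediateField.adjoin ℂ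
        ({(⟨ι PowerSeries.X, hXL⟩ : L)} : Set L) := ⟨_, rfl⟩
      rw [← hF0]
      have hxF : (⟨ι PowerSeries.X, hXL⟩ : L) ∈ F0 := by
        rw [hF0]
        exact IntermediateField.subset_adjoin ℂ _ rfl
      rw [← isAlgebraic_iff_isIntegral]
      obtain ⟨g, hg⟩ : ∃ g : Option (Fin w) → Polynomial F0, g = fun o => o.elim Polynomial.X
        (fun i => Polynomial.C (if i = i0 then (⟨_, hxF⟩ : F0) else 0)) := ⟨_, rfl⟩
      refine ⟨aeval g D.M, ?_, ?_⟩
      · -- nonzero
        intro h0
        have h1 := (ab_coeff p hp0 D.M).2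
        obtain ⟨g', hg'⟩ : ∃ g' : Option (Fin w) → Polynomial (PowerSeries ℂ), g' =
          fun o => o.elim Polynomial.X (fun i => Polynomial.C (p i)) := ⟨_, rfl⟩
        rw [← hg'] at h1
        have h2 : Polynomial.mapAlgHom ι (aeval g' D.M) =
            Polynomial.mapAlgHom ((L.val).comp ((F0.val).restrictScalars ℂ)) (aeval g D.M) := by
          rw [comp_aeval_apply, comp_aeval_apply]
          congr 1
          congr 1
          funext o
          rw [hg, hg']
          cases o with
          | none => simp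
          | some i =>
            by_cases h : i = i0
            · simp [hp, h]
            · simp [hp, h]
        rw [h0, map_zero] at h2
        have h3 := congrArg (fun q => Polynomial.coeff q 1) h2
        simp only [Polynomial.coe_mapAlgHom, Polynomial.coeff_map, Polynomial.coeff_zero] at h3
        have h4 : (aeval g' D.M).coeff 1 = 0 := hinj (by rw [map_zero]; exact h3)
        rw [h4, map_zero] at h1
        exact h.M1.ne_zero h1.symm
      · have h1 : (Polynomial.aeval (⟨ι θ, hθL⟩ : L)) (aeval g D.M) =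
            (((Polynomial.aeval (⟨ι θ, hθL⟩ : L) : Polynomial F0 →ₐ[F0] L).restrictScalars ℂ)
              (aeval g D.M)) := rfl
        rw [h1, comp_aeval_apply]
        apply Subtype.val_injective
        show L.val (aeval _ D.M) = 0
        rw [comp_aeval_apply]
        have h2 : ι (aeval (fun o : Option (Fin w) => o.elim θ p) D.M) = 0 := by rw [hθ, map_zero]
        rw [hcomp] at h2
        rw [← h2]
        congr 1
        congr 1
        funext o
        rw [hg]
        cases o with
        | none => simp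
        | some i =>
          by_cases h : i = i0
          · simp [hp, h]
          · simp [hp, h]
  -- the points
  obtain ⟨A, hA⟩ : ∃ A : ℕ → Fin (n + 1) → PowerSeries ℂ, ∀ m i, A m i = aeval (P m).1 (D.c i) :=
    ⟨_, fun _ _ => rfl⟩
  obtain ⟨f, hf⟩ : ∃ f : ℕ → Fin (n + 1) → L, ∀ m i, (f m i : E) = ι (A m i) :=
    ⟨fun m i => ⟨_, hmem _ (hPL m) (D.c i)⟩, fun m i => by rw [hA]⟩
  obtain ⟨x, hx⟩ : ∃ x : Fin (n + 1) → ℂ, ∀ i, x i = constantCoeff (D.c i) := ⟨_, fun _ => rfl⟩
  have hcx : ∀ G : MvPolynomial (Fin (n + 1)) ℂ, eval x G = constantCoeff (aeval D.c G) := by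
    intro G
    rw [aeval_def, eval₂_comp_left]
    have e1 : (constantCoeff : Pl ℂ w →+* ℂ).comp (algebraMap ℂ (Pl ℂ w)) = RingHom.id ℂ := by
      ext r
      simp [algebraMap_eq]
    have e2 : (constantCoeff : Pl ℂ w →+* ℂ) ∘ D.c = x := funext fun i => (hx i).symm
    rw [e1, e2, eval₂_id]
  have hAx : ∀ m i, PowerSeries.constantCoeff (A m i) = x i := fun m i => by
    rw [hA, cc_aeval _ (P m).2.1, hx]
  have hxl : x D.l0 ≠ 0 := by
    rw [hx]
    exact h.c0.ne_zero
  have hAl : ∀ m, A m D.l0 ≠ 0 := fun m h0 => hxl (by rw [← hAx m, h0, map_zero])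
  have hfl : ∀ m, f m D.l0 ≠ 0 := fun m h0 => hAl m (hinj (by rw [← hf, h0, map_zero]; rfl))
  have hev : ∀ m (G : MvPolynomial (Fin (n + 1)) ℂ), ((aeval (f m) G : L) : E) =
      ι (aeval (P m).1 (aeval D.c G)) := by
    intro m G
    have h1 : ((aeval (f m) G : L) : E) = L.val (aeval (f m) G) := rfl
    have h2 : (aeval (P m).1 (aeval D.c G) : PowerSeries ℂ) = aeval (A m) G := by
      rw [comp_aeval_apply]
      congr 1
      congr 1
      funext i
      rw [hA]
    rw [h1, h2, comp_aeval_apply, comp_aeval_apply]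
    congr 1
    congr 1
    funext i
    exact hf m i
  refine ⟨L, inferInstance, inferInstance, hFF, c, x, fun h0 => hxl (by rw [h0]; rfl), fun i => ?_, ?_,
    f, fun m h0 => hfl m (by rw [h0]; rfl), fun m i => ?_, fun m i j => ?_, fun m m' a ha => ?_⟩
  · obtain ⟨q, hq⟩ := h.eqn i
    rw [hcx, hq, map_mul, h.M0, zero_mul]
  · rw [hcx]
    exact h.q0.ne_zero
  · obtain ⟨q, hq⟩ := h.eqn i
    apply Subtype.val_injective
    show ((aeval (f m) (F i) : L) : E) = 0
    rw [hev, hq, map_mul, (P m).2.2, zero_mul, map_zero]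
  · by_cases h0 : algebraMap ℂ L (x i) * f m j - algebraMap ℂ L (x j) * f m i = 0
    · exact Or.inl h0
    · right
      have h1 : ((algebraMap ℂ L (x i) * f m j - algebraMap ℂ L (x j) * f m i : L) : E) =
          ι (PowerSeries.C (x i) * A m j - PowerSeries.C (x j) * A m i) := by
        have e : ∀ r : ℂ, ι (PowerSeries.C r) = algebraMap ℂ E r := fun r => ι.commutes r
        rw [map_sub, map_mul, map_mul, e, e, ← hf, ← hf]
        rfl
      have h2 : (PowerSeries.C (x i) * A m j - PowerSeries.C (x j) * A m i) ≠ 0 := by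
        intro h3
        rw [h3, map_zero] at h1
        exact h0 (Subtype.val_injective h1)
      have h3 : 0 < Q0.ord (ι (PowerSeries.C (x i) * A m j - PowerSeries.C (x j) * A m i)) := by
        apply hpos _ h2
        rw [map_sub, map_mul, map_mul, hAx, hAx, PowerSeries.constantCoeff_C,
          PowerSeries.constantCoeff_C]
        ring
      have h4 := pord_le c (hfl m)
      rw [hc (f m D.l0), hf, hzero _ (by rw [hAx]; exact hxl)] at h4
      rw [hc, h1]
      exact lt_of_le_of_lt h4 h3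
  · have h1 : ∀ m i, A m (D.l i) = A m D.l0 * ((P m).1 (some i) + PowerSeries.C (D.κ i)) := by
      intro m i
      rw [hA, hA, h.cl, map_mul, map_add, aeval_X, aeval_C]
      rfl
    have h2 : ∀ j, (a : E) * ι (A m' j) = ι (A m j) := by
      intro j
      rw [← hf, ← hf, ← ha]
      rfl
    have h3 := h2 (D.l i0)
    rw [h1, h1, map_mul, map_mul, ← mul_assoc, h2] at h3
    have h4 : ι (A m D.l0) ≠ 0 := fun h5 => hAl m (hinj (by rw [h5, map_zero]))
    have h5 := hinj (mul_left_cancel₀ h4 h3)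
    have h6 := congrArg (PowerSeries.coeff 1) (add_right_cancel h5)
    rw [hc1, hc1, if_pos rfl, mul_one, mul_one] at h6
    have h7 : (2 : ℕ) ^ m' = 2 ^ m := by exact_mod_cast h6
    exact (Nat.pow_right_injective le_rfl h7).symm

end Run7.h177.PG
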